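import Pool.Agent.T9h91.WeirdAlg

set_option autoImplicit false

namespace Pool.Agent.T9h91.WO

theorem final (l' : ℕ ≃ ℕ) (ψ : BA → Set ℕ) (hinj : Function.Injective ψ)
    (hsup : ∀ a b, ψ (a ⊔ b) = ψ a ∪ ψ b) (hcompl : ∀ a, ψ aᶜ = (ψ a)ᶜ)
    (hrange : Set.range ψ = {X | FC X})
    (c : ℕ → List ℕ × Bool) (hc : Computable c)
    (hcc : ∀ n : ℕ, ψ (en n) = {x : ℕ | Xor ((c n).2 = true)
      (Odd ((c n).1.filter (fun s => decide (l' s ≤ x))).length)}) : False := by
  have hrefl : ∀ a b, ψ a ⊆ ψ b → a ≤ b := by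
    intro a b h
    have h1 : ψ (a ⊔ b) = ψ b := by rw [hsup]; exact Set.union_eq_self_of_subset_left h
    exact sup_eq_right.1 (hinj h1)
  have hfin : ∀ a : BA, (a : Set ℕ).Finite → (ψ a).Finite := by
    intro a ha
    have h1 : {b : BA | (b : Set ℕ) ⊆ (a : Set ℕ)}.Finite := by
      refine Set.Finite.of_injOn (f := fun b : BA => (b : Set ℕ)) (t := Set.powerset (a : Set ℕ))
        ?_ ?_ ha.powerset
      · intro b hb; exact hb
      · intro b _ b' _ h; exact Subtype.ext h
    have h2 : (fun y : ℕ => ({y} : Set ℕ)) '' (ψ a) ⊆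
        ψ '' {b : BA | (b : Set ℕ) ⊆ (a : Set ℕ)} := by
      rintro Y ⟨y, hy, rfl⟩
      have h3 : ({y} : Set ℕ) ∈ Set.range ψ := by
        rw [hrange]; exact Or.inl (Set.finite_singleton y)
      obtain ⟨b, hb⟩ := h3
      refine ⟨b, ?_, hb⟩
      apply hrefl
      rw [hb]
      intro z hz
      have : z = y := hz
      rw [this]; exact hy
    have h3 := (h1.image ψ).subset h2
    exact Set.Finite.of_finite_image h3 (fun x _ y _ h => Set.singleton_injective h)
  have hfin' : ∀ a : BA, (ψ a).Finite → (a : Set ℕ).Finite := by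
    intro a ha
    rcases a.2 with h | h
    · exact h
    · exfalso
      have h1 : (ψ aᶜ).Finite := hfin aᶜ h
      rw [hcompl] at h1
      have h2 := ha.union h1
      rw [Set.union_compl_self] at h2
      exact Set.infinite_univ h2
  have hev : ∀ n, (ψ (en n)).Finite ↔ ¬ Xor ((c n).2 = true) (Odd (c n).1.length) := by
    intro n
    obtain ⟨N, hN⟩ : ∃ N, ∀ s ∈ (c n).1, l' s ≤ N := by
      refine ⟨((c n).1.toFinset).sup (fun s => l' s), fun s hs => ?_⟩
      exact Finset.le_sup (f := fun s => l' s) (List.mem_toFinset.2 hs)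
    have hf : ∀ x, N ≤ x → (c n).1.filter (fun s => decide (l' s ≤ x)) = (c n).1 := by
      intro x hx
      rw [List.filter_eq_self]
      intro s hs
      simpa using le_trans (hN s hs) hx
    constructor
    · intro h hX
      have h2 : {x | N ≤ x} ⊆ ψ (en n) := by
        intro x hx
        rw [hcc]
        change Xor _ _
        rw [hf x hx]
        exact hX
      refine (Set.infinite_of_not_bddAbove ?_) (h.subset h2)
      rintro ⟨b, hb⟩
      have h3 : max b N + 1 ≤ b := hb (show N ≤ max b N + 1 by omega)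
      omega
    · intro hX
      refine (Set.finite_lt_nat N).subset (fun x hx => ?_)
      by_contra hcon
      have h1 : N ≤ x := not_lt.1 hcon
      rw [hcc] at hx
      have h2 : Xor ((c n).2 = true)
        (Odd ((c n).1.filter (fun s => decide (l' s ≤ x))).length) := hx
      rw [hf x h1] at h2
      exact hX h2
  apply T_not_computable
  rw [ComputablePred.computable_iff]
  refine ⟨fun s => Bool.xor (c (2 ^ s)).2 (decide ((c (2 ^ s)).1.length % 2 = 1)), ?_, ?_⟩
  · have h1 : Computable (fun s : ℕ => c (2 ^ s)) :=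
      hc.comp (pow_primrec.comp (Primrec.const 2) Primrec.id).to_comp
    have h2 : Computable (fun s : ℕ => decide ((c (2 ^ s)).1.length % 2 = 1)) := by
      have h3 : Primrec (fun l : List ℕ => decide (l.length % 2 = 1)) :=
        (Primrec.eq.comp (Primrec.nat_mod.comp Primrec.list_length (Primrec.const 2))
          (Primrec.const 1)).decide
      exact h3.to_comp.comp (Computable.fst.comp h1)
    have h4 : Primrec₂ Bool.xor := Primrec.dom_finite _
    exact h4.to_comp.comp (Computable.snd.comp h1) h2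
  · funext s
    rw [eq_iff_iff]
    have h1 : T s ↔ ¬ (ψ (en (2 ^ s))).Finite := by
      have h2 : (ψ (en (2 ^ s))).Finite ↔ ((en (2 ^ s) : BA) : Set ℕ).Finite :=
        ⟨hfin' _, hfin _⟩
      rw [h2, en_val, bits_two_pow, U_singleton_finite_iff]
      tauto
    rw [h1, hev, not_not, Nat.odd_iff]
    by_cases ha : (c (2 ^ s)).2 = true <;> by_cases hb : (c (2 ^ s)).1.length % 2 = 1 <;>
      simp [ha, hb, Xor]

end Pool.Agent.T9h91.WO
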