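import Pool.Agent.T9h91.WeirdOrder

/-!
The Boolean algebra of finite and cofinite sets of natural numbers, with a computable
presentation coming from the order `W`.
-/

set_option autoImplicit false

namespace Pool.Agent.T9h91.WO

open scoped symmDiff

/-- finite or cofinite -/
def FC (X : Set ℕ) : Prop := X.Finite ∨ Xᶜ.Finite

theorem odd_symmDiff (p : ℕ → Prop) [DecidablePred p] (F G : Finset ℕ) :
    Odd ((F ∆ G).filter p).card ↔ Xor (Odd (F.filter p).card) (Odd (G.filter p).card) := by
  have h1 : (F ∆ G).filter p = (F.filter p \ G.filter p) ∪ (G.filter p \ F.filter p) := by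
    ext x
    simp only [Finset.mem_filter, Finset.mem_symmDiff, Finset.mem_union, Finset.mem_sdiff]
    tauto
  have h2 : Disjoint (F.filter p \ G.filter p) (G.filter p \ F.filter p) := by
    rw [Finset.disjoint_left]
    intro x hx hx'
    simp only [Finset.mem_sdiff] at hx hx'
    exact hx'.2 hx.1
  rw [h1, Finset.card_union_of_disjoint h2]
  have h3 := Finset.card_sdiff_add_card_inter (F.filter p) (G.filter p)
  have h4 := Finset.card_sdiff_add_card_inter (G.filter p) (F.filter p)
  rw [Finset.inter_comm] at h4
  rw [← h3, ← h4]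
  generalize (F.filter p \ G.filter p).card = a
  generalize (G.filter p \ F.filter p).card = b
  generalize (F.filter p ∩ G.filter p).card = c
  simp only [Nat.odd_iff, Xor]
  omega

theorem FC_symmDiff {X Y : Set ℕ} (hX : FC X) (hY : FC Y) : FC (X ∆ Y) := by
  rcases hX with hX | hX <;> rcases hY with hY | hY
  · left
    refine (hX.union hY).subset (fun x hx => ?_)
    simp only [Set.mem_symmDiff, Set.mem_union] at *
    tauto
  · right
    refine (hX.union hY).subset (fun x hx => ?_)
    simp only [Set.mem_symmDiff, Set.mem_union, Set.mem_compl_iff] at *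
    tauto
  · right
    refine (hX.union hY).subset (fun x hx => ?_)
    simp only [Set.mem_symmDiff, Set.mem_union, Set.mem_compl_iff] at *
    tauto
  · left
    refine (hX.union hY).subset (fun x hx => ?_)
    simp only [Set.mem_symmDiff, Set.mem_union, Set.mem_compl_iff] at *
    tauto

theorem FC_union {X Y : Set ℕ} (hX : FC X) (hY : FC Y) : FC (X ∪ Y) := by
  rcases hX with hX | hX
  · rcases hY with hY | hY
    · left; exact hX.union hY
    · right
      refine hY.subset (fun x hx => ?_)
      simp only [Set.mem_union, Set.mem_compl_iff] at *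
      tauto
  · right
    refine hX.subset (fun x hx => ?_)
    simp only [Set.mem_union, Set.mem_compl_iff] at *
    tauto

theorem FC_compl {X : Set ℕ} (hX : FC X) : FC Xᶜ := by
  rcases hX with hX | hX
  · right; rwa [compl_compl]
  · left; exact hX

theorem FC_inter {X Y : Set ℕ} (hX : FC X) (hY : FC Y) : FC (X ∩ Y) := by
  have := FC_compl (FC_union (FC_compl hX) (FC_compl hY))
  rwa [Set.compl_union, compl_compl, compl_compl] at this

/-- the standard interval algebra of the natural numbers consists of the finite or cofinite sets -/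
theorem fam_eq : {X : Set ℕ | ∃ S : Finset ℕ, ∃ b : Bool,
      X = {x : ℕ | Xor (b = true) (Odd (S.filter (fun s => s ≤ x)).card)}} = {X | FC X} := by
  apply Set.Subset.antisymm
  · rintro X ⟨S, b, rfl⟩
    have hev : ∀ x, S.sup id ≤ x → S.filter (fun s => s ≤ x) = S := by
      intro x hx
      apply Finset.filter_true_of_mem
      intro s hs
      exact le_trans (Finset.le_sup (f := id) hs) hx
    by_cases hc : Xor (b = true) (Odd S.card)
    · right
      refine (Set.finite_lt_nat (S.sup id)).subset (fun x hx => ?_)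
      by_contra hcon
      apply hx
      have h1 : S.sup id ≤ x := not_lt.1 hcon
      change Xor _ _
      rw [hev x h1]
      exact hc
    · left
      refine (Set.finite_lt_nat (S.sup id)).subset (fun x hx => ?_)
      by_contra hcon
      apply hc
      have h1 : S.sup id ≤ x := not_lt.1 hcon
      have h2 : Xor (b = true) (Odd (S.filter (fun s => s ≤ x)).card) := hx
      rw [hev x h1] at h2
      exact h2
  · have hfin : ∀ X : Set ℕ, X.Finite → ∃ S : Finset ℕ, ∃ b : Bool,
        X = {x : ℕ | Xor (b = true) (Odd (S.filter (fun s => s ≤ x)).card)} := by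
      intro X hX
      induction X, hX using Set.Finite.induction_on with
      | empty => exact ⟨∅, false, by ext x; simp [Xor]⟩
      | @insert a X ha _ ih =>
        obtain ⟨S, b, hS⟩ := ih
        refine ⟨S ∆ {a, a+1}, b, ?_⟩
        ext x
        have h1 : x ∈ X ↔ Xor (b = true) (Odd (S.filter (fun s => s ≤ x)).card) := by
          constructor
          · intro h; rw [hS] at h; exact h
          · intro h; rw [hS]; exact h
        have h2 : Odd (({a, a+1} : Finset ℕ).filter (fun s => s ≤ x)).card ↔ x = a := by
          rcases lt_trichotomy x a with h | h | h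
          · have : ({a, a+1} : Finset ℕ).filter (fun s => s ≤ x) = ∅ := by
              ext y
              simp only [Finset.mem_filter, Finset.mem_insert, Finset.mem_singleton,
                Finset.notMem_empty, iff_false]
              omega
            rw [this]
            simp only [Finset.card_empty, Nat.not_odd_zero, false_iff]
            omega
          · have : ({a, a+1} : Finset ℕ).filter (fun s => s ≤ x) = {a} := by
              ext y
              simp only [Finset.mem_filter, Finset.mem_insert, Finset.mem_singleton]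
              omega
            rw [this]
            simp [h]
          · have : ({a, a+1} : Finset ℕ).filter (fun s => s ≤ x) = {a, a+1} := by
              ext y
              simp only [Finset.mem_filter, Finset.mem_insert, Finset.mem_singleton]
              omega
            rw [this]
            have hcard : ({a, a+1} : Finset ℕ).card = 2 := Finset.card_pair (by omega)
            rw [hcard]
            simp only [Nat.odd_iff]
            omega
        rw [Set.mem_insert_iff]
        change _ ↔ Xor (b = true) (Odd ((S ∆ {a, a+1}).filter (fun s => s ≤ x)).card)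
        rw [odd_symmDiff, h2]
        have h3 : x = a → ¬ Xor (b = true) (Odd (S.filter (fun s => s ≤ x)).card) := by
          intro h
          rw [← h1, h]; exact ha
        rw [h1]
        unfold Xor at *
        tauto
    intro X hX
    rcases hX with hX | hX
    · exact hfin X hX
    · obtain ⟨S, b, hS⟩ := hfin _ hX
      refine ⟨S, !b, ?_⟩
      ext x
      have h1 : x ∉ X ↔ Xor (b = true) (Odd (S.filter (fun s => s ≤ x)).card) := by
        rw [← Set.mem_compl_iff, hS]; rfl
      change _ ↔ Xor ((!b) = true) (Odd (S.filter (fun s => s ≤ x)).card)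
      have h2 : x ∈ X ↔ ¬ (x ∉ X) := by tauto
      rw [h2, h1]
      have h3 : ((!b) = true) ↔ ¬ (b = true) := by cases b <;> simp
      rw [h3]
      unfold Xor
      tauto

/-- set coded by a finite set -/
def U (F : Finset ℕ) : Set ℕ := {x | Odd (F.filter (fun u => W u x)).card}

theorem mem_U {F : Finset ℕ} {x : ℕ} : x ∈ U F ↔ Odd (F.filter (fun u => W u x)).card := Iff.rfl

theorem U_empty : U ∅ = ∅ := by
  ext x; simp [mem_U]

theorem U_symmDiff (F G : Finset ℕ) : U (F ∆ G) = U F ∆ U G := by
  ext x
  rw [mem_U, odd_symmDiff, Set.mem_symmDiff, mem_U, mem_U]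
  rfl

theorem U_singleton (s : ℕ) : U {s} = {x | W s x} := by
  ext x
  rw [mem_U]
  by_cases h : W s x
  · rw [Finset.filter_true_of_mem (by simpa using h)]
    simp [h]
  · rw [Finset.filter_false_of_mem (by simpa using h)]
    simp [h]

theorem U_singleton_zero : U {0} = Set.univ := by
  rw [U_singleton]
  ext x
  simp [W_zero]

theorem FC_U (F : Finset ℕ) : FC (U F) := by
  induction F using Finset.induction_on with
  | empty => left; rw [U_empty]; exact Set.finite_empty
  | insert s F hs ih =>
    have : insert s F = {s} ∆ F := by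
      ext x
      simp only [Finset.mem_insert, Finset.mem_symmDiff, Finset.mem_singleton]
      constructor
      · rintro (rfl | h)
        · left; exact ⟨rfl, hs⟩
        · right; exact ⟨h, fun h' => hs (h' ▸ h)⟩
      · rintro (⟨h, _⟩ | ⟨h, _⟩)
        · left; exact h
        · right; exact h
    rw [this, U_symmDiff]
    refine FC_symmDiff ?_ ih
    rw [U_singleton]
    by_cases hT : T s
    · right
      refine (Set.finite_lt_nat s).subset (fun x hx => ?_)
      by_contra hcon
      exact hx (T_above hT (not_lt.1 hcon))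
    · left
      obtain ⟨t0, ht0⟩ := not_T_above hT
      refine (Set.finite_lt_nat t0).subset (fun x hx => ?_)
      by_contra hcon
      exact ht0 x (not_lt.1 hcon) hx

theorem U_singleton_finite_iff (s : ℕ) : (U {s}).Finite ↔ ¬ T s := by
  rw [U_singleton]
  constructor
  · intro h hT
    have h2 : {x | s ≤ x} ⊆ {x | W s x} := fun x hx => T_above hT hx
    exact (Set.infinite_of_not_bddAbove (by
      rintro ⟨b, hb⟩
      have h3 : max b s + 1 ≤ b := hb (show s ≤ max b s + 1 by omega)
      omega)) (h.subset h2)
  · intro hT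
    obtain ⟨t0, ht0⟩ := not_T_above hT
    refine (Set.finite_lt_nat t0).subset (fun x hx => ?_)
    by_contra hcon
    exact ht0 x (not_lt.1 hcon) hx

theorem finset_least (F : Finset ℕ) (h : F.Nonempty) : ∃ s ∈ F, ∀ t ∈ F, W s t := by
  induction F using Finset.induction_on with
  | empty => simp at h
  | insert a F ha ih =>
    by_cases hF : F.Nonempty
    · obtain ⟨s, hs, hst⟩ := ih hF
      rcases W_total a s with h1 | h1
      · refine ⟨a, by simp, fun t ht => ?_⟩
        rcases Finset.mem_insert.1 ht with rfl | ht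
        · exact W_refl _
        · exact W_trans h1 (hst t ht)
      · refine ⟨s, by simp [hs], fun t ht => ?_⟩
        rcases Finset.mem_insert.1 ht with rfl | ht
        · exact h1
        · exact hst t ht
    · rw [Finset.not_nonempty_iff_eq_empty] at hF
      subst hF
      exact ⟨a, by simp, fun t ht => by
        have : t = a := by simpa using ht
        rw [this]; exact W_refl _⟩

theorem set_least (S : Set ℕ) (hf : S.Finite) (h : S.Nonempty) : ∃ s ∈ S, ∀ t ∈ S, W s t := by
  obtain ⟨s, hs, hst⟩ := finset_least hf.toFinset (by simpa using h)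
  exact ⟨s, by simpa using hs, fun t ht => hst t (by simpa using ht)⟩

theorem U_agree {F G : Finset ℕ} (h : ∀ x ∈ F ∪ G, x ∈ U F ↔ x ∈ U G) : F = G := by
  by_contra hne
  have hne' : (F ∆ G).Nonempty := Finset.symmDiff_nonempty.2 hne
  obtain ⟨s, hs, hst⟩ := finset_least _ hne'
  have h1 : s ∈ F ∪ G := by
    rw [Finset.mem_symmDiff] at hs
    rw [Finset.mem_union]; tauto
  have h2 : s ∈ U (F ∆ G) := by
    rw [mem_U]
    have : (F ∆ G).filter (fun u => W u s) = {s} := by
      ext u
      simp only [Finset.mem_filter, Finset.mem_singleton]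
      constructor
      · rintro ⟨hu, hus⟩
        exact W_antisymm hus (hst u hu)
      · rintro rfl
        exact ⟨hs, W_refl _⟩
    rw [this]; simp
  rw [U_symmDiff, Set.mem_symmDiff] at h2
  have h3 := h s h1
  tauto

theorem U_injective {F G : Finset ℕ} (h : U F = U G) : F = G :=
  U_agree (fun x _ => by rw [h])

theorem exists_succ (x : ℕ) (h : ∃ y, y ≠ x ∧ W x y) :
    ∃ y, (y ≠ x ∧ W x y) ∧ ∀ z, z ≠ x → W x z → W y z := by
  by_cases hT : T x
  · obtain ⟨t, ht, hTt⟩ := exists_T (x + 1)
    have hxt : W x t := T_above hT (by omega)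
    have hfin : {y | (y ≠ x ∧ W x y) ∧ W y t}.Finite := by
      refine (Set.finite_le_nat t).subset (fun y hy => ?_)
      by_contra hcon
      have h1 : W t y := T_above hTt (by
        have : ¬ y ≤ t := hcon
        omega)
      have h2 := W_antisymm h1 hy.2
      have : ¬ y ≤ t := hcon
      omega
    obtain ⟨y, hy, hyl⟩ := set_least _ hfin ⟨t, ⟨by omega, hxt⟩, W_refl t⟩
    refine ⟨y, hy.1, fun z hz hxz => ?_⟩
    rcases W_total z t with h1 | h1
    · exact hyl z ⟨⟨hz, hxz⟩, h1⟩
    · exact W_trans hy.2 h1
  · have hfin : {y | y ≠ x ∧ W x y}.Finite := by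
      refine Set.Finite.subset ?_ (fun y hy => hy.2)
      have := (U_singleton_finite_iff x).2 hT
      rwa [U_singleton] at this
    obtain ⟨y, hy, hyl⟩ := set_least _ hfin h
    exact ⟨y, hy, fun z hz hxz => hyl z ⟨hz, hxz⟩⟩

theorem U_single (x : ℕ) : ∃ F, U F = {x} := by
  by_cases h : ∃ y, y ≠ x ∧ W x y
  · obtain ⟨y, ⟨hy, hxy⟩, hyl⟩ := exists_succ x h
    refine ⟨{x} ∆ {y}, ?_⟩
    rw [U_symmDiff, U_singleton, U_singleton]
    ext z
    rw [Set.mem_symmDiff, Set.mem_singleton_iff]
    constructor
    · rintro (⟨h1, h2⟩ | ⟨h1, h2⟩)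
      · by_contra hz
        exact h2 (hyl z hz h1)
      · exact absurd (W_trans hxy h1) h2
    · rintro rfl
      left
      refine ⟨W_refl _, fun h2 => hy (W_antisymm h2 hxy)⟩
  · push Not at h
    refine ⟨{x}, ?_⟩
    rw [U_singleton]
    ext z
    rw [Set.mem_singleton_iff]
    constructor
    · intro h1
      by_contra hz
      exact h z hz h1
    · rintro rfl
      exact W_refl _

theorem U_surj {X : Set ℕ} (hX : FC X) : ∃ F, U F = X := by
  have hfin : ∀ X : Set ℕ, X.Finite → ∃ F, U F = X := by
    intro X hX
    induction X, hX using Set.Finite.induction_on with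
    | empty => exact ⟨∅, U_empty⟩
    | @insert a X ha _ ih =>
      obtain ⟨F, hF⟩ := ih
      obtain ⟨H, hH⟩ := U_single a
      refine ⟨H ∆ F, ?_⟩
      rw [U_symmDiff, hF, hH]
      ext x
      simp only [Set.mem_symmDiff, Set.mem_singleton_iff, Set.mem_insert_iff]
      constructor
      · tauto
      · rintro (rfl | h)
        · exact Or.inl ⟨rfl, ha⟩
        · right
          exact ⟨h, fun h' => ha (h' ▸ h)⟩
  rcases hX with hX | hX
  · exact hfin X hX
  · obtain ⟨F, hF⟩ := hfin _ hX
    refine ⟨{0} ∆ F, ?_⟩
    rw [U_symmDiff, U_singleton_zero, hF]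
    ext x
    simp [Set.mem_symmDiff]

theorem U_inter (F G : Finset ℕ) : ∃ H, H ⊆ F ∪ G ∧ U H = U F ∩ U G := by
  have h0 : ∀ s t : ℕ, ∃ r, (r = s ∨ r = t) ∧ U {r} = U {s} ∩ U {t} := by
    intro s t
    rcases W_total s t with h | h
    · refine ⟨t, Or.inr rfl, ?_⟩
      rw [U_singleton, U_singleton]
      ext x
      exact ⟨fun hx => ⟨W_trans h hx, hx⟩, fun hx => hx.2⟩
    · refine ⟨s, Or.inl rfl, ?_⟩
      rw [U_singleton, U_singleton]
      ext x
      exact ⟨fun hx => ⟨hx, W_trans h hx⟩, fun hx => hx.1⟩
  have hins : ∀ (s : ℕ) (F : Finset ℕ), s ∉ F → U (insert s F) = U {s} ∆ U F := by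
    intro s F hs
    rw [← U_symmDiff]
    congr 1
    ext x
    simp only [Finset.mem_insert, Finset.mem_symmDiff, Finset.mem_singleton]
    constructor
    · rintro (rfl | h)
      · left; exact ⟨rfl, hs⟩
      · right; exact ⟨h, fun h' => hs (h' ▸ h)⟩
    · rintro (⟨h, _⟩ | ⟨h, _⟩)
      · left; exact h
      · right; exact h
  have h1 : ∀ (s : ℕ) (G : Finset ℕ), ∃ H, H ⊆ {s} ∪ G ∧ U H = U {s} ∩ U G := by
    intro s G
    induction G using Finset.induction_on with
    | empty => exact ⟨∅, by simp, by simp [U_empty]⟩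
    | insert t G ht ih =>
      obtain ⟨H, hH, hHU⟩ := ih
      obtain ⟨r, hr, hrU⟩ := h0 s t
      refine ⟨{r} ∆ H, ?_, ?_⟩
      · intro x hx
        rw [Finset.mem_symmDiff] at hx
        simp only [Finset.mem_union, Finset.mem_singleton, Finset.mem_insert]
        rcases hx with ⟨h, _⟩ | ⟨h, _⟩
        · rw [Finset.mem_singleton] at h; subst h; tauto
        · have := hH h
          simp only [Finset.mem_union, Finset.mem_singleton] at this
          tauto
      · rw [U_symmDiff, hHU, hrU, hins t G ht]
        ext x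
        simp only [Set.mem_symmDiff, Set.mem_inter_iff]
        tauto
  induction F using Finset.induction_on with
  | empty => exact ⟨∅, by simp, by simp [U_empty]⟩
  | insert s F hs ih =>
    obtain ⟨H, hH, hHU⟩ := ih
    obtain ⟨K, hK, hKU⟩ := h1 s G
    refine ⟨K ∆ H, ?_, ?_⟩
    · intro x hx
      rw [Finset.mem_symmDiff] at hx
      simp only [Finset.mem_union, Finset.mem_insert]
      rcases hx with ⟨h, _⟩ | ⟨h, _⟩
      · have := hK h
        simp only [Finset.mem_union, Finset.mem_singleton] at this
        tauto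
      · have := hH h
        simp only [Finset.mem_union] at this
        tauto
    · rw [U_symmDiff, hHU, hKU, hins s F hs]
      ext x
      simp only [Set.mem_symmDiff, Set.mem_inter_iff]
      tauto

/-! ### codes -/

/-- the finite set coded by a number -/
def bits (n : ℕ) : Finset ℕ := Finset.equivBitIndices n

theorem mem_bits_aux (n u : ℕ) : u ∈ n.bitIndices ↔ n.testBit u = true := by
  induction n using Nat.binaryRec generalizing u with
  | zero => simp
  | bit b n ih =>
    cases b
    · rw [Nat.bitIndices_bit_false]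
      cases u with
      | zero => rw [Nat.testBit_bit_zero]; simp
      | succ u => rw [Nat.testBit_bit_succ]; simp [ih]
    · rw [Nat.bitIndices_bit_true]
      cases u with
      | zero => rw [Nat.testBit_bit_zero]; simp
      | succ u => rw [Nat.testBit_bit_succ]; simp [ih]

theorem mem_bits (n u : ℕ) : u ∈ bits n ↔ n / 2 ^ u % 2 = 1 := by
  unfold bits
  rw [Finset.equivBitIndices_apply, List.mem_toFinset, mem_bits_aux, Nat.testBit_eq_decide_div_mod_eq]
  simp

theorem sum_bits (n : ℕ) : ∑ i ∈ bits n, 2 ^ i = n := by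
  unfold bits
  rw [Finset.equivBitIndices_apply, Finset.sum_toFinset_bitIndices_two_pow]

theorem le_of_mem_bits {n u : ℕ} (h : u ∈ bits n) : u < n := by
  have h1 : 2 ^ u ≤ n := by
    calc 2 ^ u ≤ ∑ i ∈ bits n, 2 ^ i :=
          Finset.single_le_sum (f := fun i => 2 ^ i) (fun _ _ => Nat.zero_le _) h
      _ = n := sum_bits n
  exact lt_of_lt_of_le Nat.lt_two_pow_self h1

theorem le_add_of_bits {k m n : ℕ} (h : bits k ⊆ bits m ∪ bits n) : k ≤ m + n := by
  calc k = ∑ i ∈ bits k, 2 ^ i := (sum_bits k).symm
    _ ≤ ∑ i ∈ bits m ∪ bits n, 2 ^ i := Finset.sum_le_sum_of_subset h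
    _ ≤ ∑ i ∈ bits m, 2 ^ i + ∑ i ∈ bits n, 2 ^ i := by
        have := Finset.sum_union_inter (s₁ := bits m) (s₂ := bits n) (f := fun i => 2 ^ i)
        omega
    _ = m + n := by rw [sum_bits, sum_bits]

theorem exists_bits (F : Finset ℕ) : ∃ n, bits n = F :=
  ⟨Finset.equivBitIndices.symm F, Finset.equivBitIndices.apply_symm_apply F⟩

theorem bits_injective {m n : ℕ} (h : bits m = bits n) : m = n :=
  Finset.equivBitIndices.injective h

theorem bits_one : bits 1 = {0} := by
  unfold bits
  rw [Finset.equivBitIndices_apply]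
  simp

theorem bits_two_pow (s : ℕ) : bits (2 ^ s) = {s} := by
  unfold bits
  rw [Finset.equivBitIndices_apply]
  simp

/-- computable membership -/
def memb (n x : ℕ) : Bool :=
  decide (((List.range n).filter (fun u => decide (n / 2 ^ u % 2 = 1 ∧ W u x))).length % 2 = 1)

theorem memb_iff (n x : ℕ) : memb n x = true ↔ x ∈ U (bits n) := by
  unfold memb
  rw [decide_eq_true_eq, mem_U, Nat.odd_iff]
  have : (bits n).filter (fun u => W u x) =
      (Finset.range n).filter (fun u => n / 2 ^ u % 2 = 1 ∧ W u x) := by
    ext u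
    simp only [Finset.mem_filter, mem_bits, Finset.mem_range]
    constructor
    · rintro ⟨h1, h2⟩
      exact ⟨le_of_mem_bits ((mem_bits n u).2 h1), h1, h2⟩
    · rintro ⟨_, h1, h2⟩
      exact ⟨h1, h2⟩
  rw [this]
  have h2 : ((Finset.range n).filter (fun u => n / 2 ^ u % 2 = 1 ∧ W u x)).card =
      ((List.range n).filter (fun u => decide (n / 2 ^ u % 2 = 1 ∧ W u x))).length := rfl
  rw [h2]

theorem pow_primrec : Primrec₂ (fun a b : ℕ => a ^ b) := by
  have : Primrec₂ (fun a b : ℕ => Nat.rec (motive := fun _ => ℕ) 1 (fun _ ih => ih * a) b) :=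
    (Primrec.nat_rec (Primrec.const 1) ((Primrec.nat_mul.comp (Primrec.snd.comp Primrec.snd)
      Primrec.fst).to₂)).to₂
  refine this.of_eq (fun a b => ?_)
  induction b with
  | zero => simp
  | succ b ih => rw [pow_succ, ← ih]

theorem memb_primrec : Primrec₂ memb := by
  have hR : PrimrecRel (fun (u : ℕ) (p : ℕ × ℕ) => p.1 / 2 ^ u % 2 = 1 ∧ W u p.2) := by
    refine PrimrecPred.and ?_ ?_
    · refine Primrec.eq.comp (Primrec.nat_mod.comp (Primrec.nat_div.comp
        (Primrec.fst.comp Primrec.snd) (pow_primrec.comp (Primrec.const 2) Primrec.fst))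
        (Primrec.const 2)) (Primrec.const 1)
    · exact W_primrec.comp Primrec.fst (Primrec.snd.comp Primrec.snd)
  have h1 : Primrec (fun p : ℕ × ℕ => (List.range p.1).filter
      (fun u => decide (p.1 / 2 ^ u % 2 = 1 ∧ W u p.2))) :=
    (PrimrecRel.listFilter hR).comp (Primrec.list_range.comp Primrec.fst) Primrec.id
  have h2 : Primrec (fun p : ℕ × ℕ => decide (((List.range p.1).filter
      (fun u => decide (p.1 / 2 ^ u % 2 = 1 ∧ W u p.2))).length % 2 = 1)) :=
    (Primrec.eq.comp (Primrec.nat_mod.comp (Primrec.list_length.comp h1) (Primrec.const 2))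
      (Primrec.const 1)).decide
  exact h2.to₂

/-- the search predicate for the meet -/
def PI (p : ℕ × ℕ) (k : ℕ) : Prop :=
  ∀ x < p.1 + p.2 + 1, memb k x = (memb p.1 x && memb p.2 x)

instance (p : ℕ × ℕ) (k : ℕ) : Decidable (PI p k) := by unfold PI; infer_instance

theorem PI_primrec : PrimrecRel PI := by
  have h : PrimrecRel (fun (x : ℕ) (q : (ℕ × ℕ) × ℕ) =>
      memb q.2 x = (memb q.1.1 x && memb q.1.2 x)) := by
    refine Primrec.eq.comp ?_ ?_
    · exact memb_primrec.comp (Primrec.snd.comp Primrec.snd) Primrec.fst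
    · refine Primrec.and.comp ?_ ?_
      · exact memb_primrec.comp (Primrec.fst.comp (Primrec.fst.comp Primrec.snd)) Primrec.fst
      · exact memb_primrec.comp (Primrec.snd.comp (Primrec.fst.comp Primrec.snd)) Primrec.fst
  have h2 := (PrimrecRel.forall_mem_list h).comp (Primrec.list_range.comp
    (Primrec.succ.comp (Primrec.nat_add.comp
      (Primrec.fst.comp (Primrec.fst (α := ℕ × ℕ) (β := ℕ)))
      (Primrec.snd.comp (Primrec.fst (α := ℕ × ℕ) (β := ℕ)))))) Primrec.id
  refine PrimrecPred.of_eq h2 (fun q => ?_)
  unfold PI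
  simp

/-- the meet on codes -/
def meet (m n : ℕ) : ℕ := (m + n).findGreatest (PI (m, n))

theorem meet_primrec : Primrec₂ meet := by
  have h : Primrec (fun p : ℕ × ℕ => (p.1 + p.2).findGreatest (PI p)) :=
    Primrec.nat_findGreatest (Primrec.nat_add.comp Primrec.fst Primrec.snd) PI_primrec
  exact h.to₂

theorem meet_spec (m n : ℕ) : U (bits (meet m n)) = U (bits m) ∩ U (bits n) := by
  obtain ⟨H, hH, hHU⟩ := U_inter (bits m) (bits n)
  obtain ⟨k, rfl⟩ := exists_bits H
  have hk : k ≤ m + n := le_add_of_bits hH
  have hbool : ∀ x, memb k x = (memb m x && memb n x) := by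
    intro x
    rw [Bool.eq_iff_iff, Bool.and_eq_true, memb_iff, memb_iff, memb_iff, hHU]
    rfl
  have hP : PI (m, n) k := fun x _ => hbool x
  have h1 : PI (m, n) (meet m n) := Nat.findGreatest_spec hk hP
  have h2 : meet m n ≤ m + n := Nat.findGreatest_le _
  rw [← hHU]
  congr 1
  apply U_agree
  intro x hx
  have hxlt : x < m + n + 1 := by
    rw [Finset.mem_union] at hx
    rcases hx with hx | hx
    · have := le_of_mem_bits hx
      omega
    · have := le_of_mem_bits hx
      omega
  rw [← memb_iff, ← memb_iff, h1 x hxlt, hP x hxlt]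

/-- the search predicate for the complement -/
def PC (n k : ℕ) : Prop := ∀ x < n + 2, memb k x = !memb n x

instance (n k : ℕ) : Decidable (PC n k) := by unfold PC; infer_instance

theorem PC_primrec : PrimrecRel PC := by
  have h : PrimrecRel (fun (x : ℕ) (q : ℕ × ℕ) => memb q.2 x = !memb q.1 x) := by
    refine Primrec.eq.comp ?_ ?_
    · exact memb_primrec.comp (Primrec.snd.comp Primrec.snd) Primrec.fst
    · refine Primrec.not.comp ?_
      exact memb_primrec.comp (Primrec.fst.comp Primrec.snd) Primrec.fst
  have h2 := (PrimrecRel.forall_mem_list h).comp (Primrec.list_range.comp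
    (Primrec.succ.comp (Primrec.succ.comp (Primrec.fst (α := ℕ) (β := ℕ))))) Primrec.id
  refine PrimrecPred.of_eq h2 (fun q => ?_)
  unfold PC
  simp only [List.mem_range, id]

/-- the complement on codes -/
def cmp (n : ℕ) : ℕ := (n + 1).findGreatest (PC n)

theorem cmp_primrec : Primrec cmp :=
  Primrec.nat_findGreatest Primrec.succ PC_primrec

theorem cmp_spec (n : ℕ) : U (bits (cmp n)) = (U (bits n))ᶜ := by
  obtain ⟨k, hk0⟩ := exists_bits ({0} ∆ bits n)
  have hkU : U (bits k) = (U (bits n))ᶜ := by
    rw [hk0, U_symmDiff, U_singleton_zero]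
    ext x; simp [Set.mem_symmDiff]
  have hk : k ≤ n + 1 := by
    apply le_add_of_bits
    rw [hk0, bits_one]
    intro x hx
    rw [Finset.mem_symmDiff] at hx
    rw [Finset.mem_union]
    tauto
  have hbool : ∀ x, memb k x = !memb n x := by
    intro x
    rw [Bool.eq_iff_iff, Bool.not_eq_true', ← Bool.not_eq_true, memb_iff, memb_iff, hkU]
    rfl
  have hP : PC n k := fun x _ => hbool x
  have h1 : PC n (cmp n) := Nat.findGreatest_spec hk hP
  have h2 : cmp n ≤ n + 1 := Nat.findGreatest_le _
  rw [← hkU]
  congr 1
  apply U_agree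
  intro x hx
  have hxlt : x < n + 2 := by
    rw [Finset.mem_union] at hx
    rcases hx with hx | hx
    · have := le_of_mem_bits hx
      omega
    · have := le_of_mem_bits hx
      omega
  rw [← memb_iff, ← memb_iff, h1 x hxlt, hP x hxlt]

/-- the Boolean algebra of finite or cofinite sets -/
def BA : BooleanSubalgebra (Set ℕ) where
  carrier := {X | FC X}
  supClosed' := fun _ hX _ hY => FC_union hX hY
  infClosed' := fun _ hX _ hY => FC_inter hX hY
  compl_mem' := fun hX => FC_compl hX
  bot_mem' := Or.inl Set.finite_empty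

/-- the presentation -/
noncomputable def en : ℕ ≃ BA :=
  Equiv.ofBijective (fun n => ⟨U (bits n), FC_U (bits n)⟩) (by
    constructor
    · intro m n h
      exact bits_injective (U_injective (congrArg Subtype.val h))
    · rintro ⟨X, hX⟩
      obtain ⟨F, hF⟩ := U_surj hX
      obtain ⟨n, rfl⟩ := exists_bits F
      exact ⟨n, Subtype.ext hF⟩)

theorem en_val (n : ℕ) : (en n : Set ℕ) = U (bits n) := rfl

theorem en_inf (m n : ℕ) : en.symm (en m ⊓ en n) = meet m n := by
  rw [Equiv.symm_apply_eq]
  apply Subtype.ext
  rw [en_val, meet_spec]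
  rfl

theorem en_compl (n : ℕ) : en.symm (en n)ᶜ = cmp n := by
  rw [Equiv.symm_apply_eq]
  apply Subtype.ext
  rw [en_val, cmp_spec]
  rfl

theorem en_sup (m n : ℕ) : en.symm (en m ⊔ en n) = cmp (meet (cmp m) (cmp n)) := by
  rw [Equiv.symm_apply_eq]
  apply Subtype.ext
  rw [en_val, cmp_spec, meet_spec, cmp_spec, cmp_spec, Set.compl_inter, compl_compl, compl_compl]
  rfl

end Pool.Agent.T9h91.WO
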