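import Mathlib

/-!
A primitive recursive linear order on the natural numbers, of order type omega plus its reverse,
whose omega part is not computable.
-/

set_option autoImplicit false

namespace Pool.Agent.T9h91.WO

open Nat.Partrec (Code)
open Nat.Partrec.Code

/-- the machine with index n halts on input 0 with bound k -/
def conv (k n : ℕ) : Bool := (evaln k (Denumerable.ofNat Code n) 0).isSome

theorem conv_zero (n : ℕ) : conv 0 n = false := by
  simp [conv, evaln]

theorem conv_mono {k k' n : ℕ} (h : k ≤ k') (hc : conv k n = true) : conv k' n = true := by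
  unfold conv at *
  rw [Option.isSome_iff_exists] at *
  obtain ⟨a, ha⟩ := hc
  exact ⟨a, evaln_mono h ha⟩

/-- stage dependent value -/
def g (t : ℕ) : ℕ :=
  if conv (t.unpair.2 + 1) t.unpair.1 = true ∧ conv t.unpair.2 t.unpair.1 = false
    then t.unpair.1 else t

/-- the label function -/
def G (t : ℕ) : ℕ := if t = 0 then 0 else g t + 1

theorem G_zero : G 0 = 0 := rfl

theorem G_pos {t : ℕ} (h : 0 < t) : 0 < G t := by
  unfold G; rw [if_neg (by omega)]; omega

theorem finite_G_le (m : ℕ) : {t | G t ≤ m}.Finite := by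
  have h1 : ∀ n : ℕ, {t : ℕ | t.unpair.1 = n ∧ conv (t.unpair.2 + 1) n = true ∧
      conv t.unpair.2 n = false}.Subsingleton := by
    intro n t ht t' ht'
    obtain ⟨h1, h2, h3⟩ := ht
    obtain ⟨h1', h2', h3'⟩ := ht'
    have : t.unpair.2 = t'.unpair.2 := by
      rcases lt_trichotomy t.unpair.2 t'.unpair.2 with h | h | h
      · have := conv_mono (Nat.succ_le_of_lt h) h2
        simp_all
      · exact h
      · have := conv_mono (Nat.succ_le_of_lt h) h2'
        simp_all
    rw [← Nat.pair_unpair t, ← Nat.pair_unpair t', h1, h1', this]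
  have h2 : {t | G t ≤ m} ⊆ {t | t ≤ m} ∪ ⋃ n ∈ Finset.range (m + 1),
      {t : ℕ | t.unpair.1 = n ∧ conv (t.unpair.2 + 1) n = true ∧ conv t.unpair.2 n = false} := by
    intro t ht
    simp only [Set.mem_setOf_eq, Set.mem_union, Set.mem_iUnion, Finset.mem_range] at *
    by_cases h0 : t = 0
    · left; omega
    unfold G at ht
    rw [if_neg h0] at ht
    unfold g at ht
    split_ifs at ht with hc
    · right
      exact ⟨t.unpair.1, by omega, rfl, hc.1, hc.2⟩
    · left; omega
  refine Set.Finite.subset ?_ h2
  refine Set.Finite.union (Set.finite_le_nat m) ?_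
  refine Set.Finite.biUnion (Finset.finite_toSet _) ?_
  intro n _
  exact (h1 n).finite

/-- `A s t` : all labels in the interval from s (excluded) to t (included) exceed the label of s -/
def A (s t : ℕ) : Prop := ∀ u < t + 1, u ≤ s ∨ G s < G u

instance (s t : ℕ) : Decidable (A s t) := by unfold A; infer_instance

/-- the order -/
def W (s t : ℕ) : Prop := if s ≤ t then A s t else ¬ A t s

instance (s t : ℕ) : Decidable (W s t) := by unfold W; infer_instance

theorem A_self (s : ℕ) : A s s := fun u hu => Or.inl (by omega)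

theorem A_mono {s t t' : ℕ} (h : t' ≤ t) (hA : A s t) : A s t' := fun u hu => hA u (by omega)

theorem A_trans {a b c : ℕ} (hab : a ≤ b) (h1 : A a b) (h2 : A b c) : A a c := by
  intro u hu
  by_cases hub : u ≤ b
  · exact h1 u (by omega)
  · right
    have h3 : G b < G u := (h2 u hu).resolve_left hub
    by_cases hab' : a = b
    · subst hab'; exact h3
    · have h4 : G a < G b := (h1 b (by omega)).resolve_left (by omega)
      omega

theorem W_refl (s : ℕ) : W s s := by simp [W, A_self]

theorem W_total (s t : ℕ) : W s t ∨ W t s := by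
  unfold W
  rcases lt_trichotomy s t with h | h | h
  · rw [if_pos h.le, if_neg (by omega)]; exact Classical.em _
  · subst h; left; simp [A_self]
  · rw [if_neg (by omega), if_pos h.le]; exact (Classical.em _).symm

theorem W_antisymm {s t : ℕ} (h1 : W s t) (h2 : W t s) : s = t := by
  unfold W at *
  rcases lt_trichotomy s t with h | h | h
  · rw [if_pos h.le] at h1; rw [if_neg (by omega)] at h2; tauto
  · exact h
  · rw [if_neg (by omega)] at h1; rw [if_pos h.le] at h2; tauto

theorem W_trans {a b c : ℕ} (h1 : W a b) (h2 : W b c) : W a c := by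
  unfold W at *
  rcases le_or_gt a b with hab | hab <;> rcases le_or_gt b c with hbc | hbc <;>
    rcases le_or_gt a c with hac | hac
  · rw [if_pos hab] at h1; rw [if_pos hbc] at h2; rw [if_pos hac]
    exact A_trans hab h1 h2
  · omega
  · rw [if_pos hab] at h1; rw [if_neg (by omega)] at h2; rw [if_pos hac]
    exact A_mono hbc.le h1
  · rw [if_pos hab] at h1; rw [if_neg (by omega)] at h2; rw [if_neg (by omega)]
    intro h
    exact h2 (A_trans hac.le h h1)
  · rw [if_neg (by omega)] at h1; rw [if_pos hbc] at h2
    exact absurd (A_mono hac h2) h1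
  · rw [if_neg (by omega)] at h1; rw [if_pos hbc] at h2; rw [if_neg (by omega)]
    intro h
    exact h1 (A_trans hbc h2 h)
  · omega
  · rw [if_neg (by omega)] at h1; rw [if_neg (by omega)] at h2; rw [if_neg (by omega)]
    intro h
    exact h2 (A_mono hab.le h)

theorem W_zero (t : ℕ) : W 0 t := by
  unfold W
  rw [if_pos (Nat.zero_le _)]
  intro u _
  by_cases h : u = 0
  · left; omega
  · right; rw [G_zero]; exact G_pos (by omega)

/-- membership in the omega part -/
def T (s : ℕ) : Prop := ∀ t, s < t → G s < G t

theorem T_iff (s : ℕ) : T s ↔ ∀ t, A s t := by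
  constructor
  · intro h t u _
    by_cases hu : u ≤ s
    · left; exact hu
    · right; exact h u (by omega)
  · intro h t ht
    exact (h t t (by omega)).resolve_left (by omega)

theorem T_above {s : ℕ} (h : T s) {t : ℕ} (ht : s ≤ t) : W s t := by
  unfold W; rw [if_pos ht]; exact (T_iff s).1 h t

theorem not_T_above {s : ℕ} (h : ¬ T s) : ∃ t0, ∀ t, t0 ≤ t → ¬ W s t := by
  rw [T_iff] at h
  push Not at h
  obtain ⟨t0, ht0⟩ := h
  refine ⟨max t0 (s+1), fun t ht => ?_⟩
  unfold W; rw [if_pos (by omega)]
  intro hA
  exact ht0 (A_mono (by omega) hA)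

theorem exists_T (n : ℕ) : ∃ s, n ≤ s ∧ T s := by
  -- minimal label among the numbers at least n
  obtain ⟨a, ha, hmin⟩ : ∃ a, n ≤ a ∧ ∀ b, n ≤ b → G a ≤ G b := by
    have hne : (G '' {b | n ≤ b}).Nonempty := ⟨G n, n, le_refl n, rfl⟩
    have hw := Nat.sInf_mem hne
    obtain ⟨a, ha, hG⟩ := hw
    refine ⟨a, ha, fun b hb => ?_⟩
    rw [hG]
    exact Nat.sInf_le ⟨b, hb, rfl⟩
  have hfin : {b | n ≤ b ∧ G b ≤ G a}.Finite := (finite_G_le (G a)).subset (fun b hb => hb.2)
  obtain ⟨s, hs, hmax⟩ := hfin.exists_maximal (α := ℕ) ⟨a, ha, le_refl _⟩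
  refine ⟨s, hs.1, fun t ht => ?_⟩
  by_contra hcon
  have h1 : G t ≤ G a := by
    have := hs.2
    omega
  have := hmax (y := t) ⟨by have := hs.1; omega, h1⟩ ht.le
  omega

theorem exists_T_G (n : ℕ) : ∃ s, T s ∧ n ≤ G s := by
  by_contra hcon
  push Not at hcon
  have hfin : {s | T s}.Finite := (finite_G_le n).subset (fun s hs => (hcon s hs).le)
  obtain ⟨b, hb⟩ := hfin.bddAbove
  obtain ⟨s, hs, hT⟩ := exists_T (b + 1)
  have : s ≤ b := hb hT
  omega

theorem T_decides {s n : ℕ} (hT : T s) (hn : n + 1 ≤ G s) :
    (∃ k, conv k n = true) ↔ conv (s + 1) n = true := by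
  constructor
  · intro h
    classical
    have hk := Nat.find_spec h
    have hk' := fun m => @Nat.find_min _ _ h m
    set k := Nat.find h with hkdef
    have hk0 : k ≠ 0 := by
      intro h0
      rw [h0, conv_zero] at hk
      exact absurd hk (by simp)
    obtain ⟨j, hjk⟩ := Nat.exists_eq_succ_of_ne_zero hk0
    rw [hjk] at hk hk'
    have hj : conv j n = false := by
      have := hk' j (Nat.lt_succ_self j)
      simpa using this
    set t := Nat.pair n j with ht
    have hG : G t ≤ n + 1 := by
      unfold G
      split_ifs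
      · omega
      · unfold g
        rw [if_pos]
        · simp [ht]
        · simp only [ht, Nat.unpair_pair]
          exact ⟨hk, hj⟩
    have hts : t ≤ s := by
      by_contra hcon
      have := hT t (by omega)
      omega
    have hjs : j ≤ s := le_trans (Nat.right_le_pair n j) hts
    exact conv_mono (by omega) hk
  · intro h
    exact ⟨_, h⟩

/-! ### primitive recursiveness -/

theorem conv_primrec : Primrec₂ conv := by
  unfold conv
  exact (Primrec.option_isSome.comp (primrec_evaln.comp
    (Primrec.pair (Primrec.pair Primrec.fst ((Primrec.ofNat Code).comp Primrec.snd))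
      (Primrec.const 0)))).to₂

theorem g_primrec : Primrec g := by
  unfold g
  refine Primrec.ite ?_ (Primrec.fst.comp Primrec.unpair) Primrec.id
  refine PrimrecPred.and ?_ ?_
  · exact Primrec.eq.comp (conv_primrec.comp (Primrec.succ.comp (Primrec.snd.comp Primrec.unpair))
      (Primrec.fst.comp Primrec.unpair)) (Primrec.const true)
  · exact Primrec.eq.comp (conv_primrec.comp (Primrec.snd.comp Primrec.unpair)
      (Primrec.fst.comp Primrec.unpair)) (Primrec.const false)

theorem G_primrec : Primrec G := by
  unfold G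
  exact Primrec.ite (Primrec.eq.comp Primrec.id (Primrec.const 0)) (Primrec.const 0)
    (Primrec.succ.comp g_primrec)

theorem A_primrec : PrimrecRel A := by
  have h : PrimrecRel (fun u s => u ≤ s ∨ G s < G u) := by
    refine PrimrecPred.or ?_ ?_
    · exact Primrec.nat_le.comp Primrec.fst Primrec.snd
    · exact Primrec.nat_lt.comp (G_primrec.comp Primrec.snd) (G_primrec.comp Primrec.fst)
  exact (PrimrecRel.forall_lt h).comp (Primrec.succ.comp Primrec.snd) Primrec.fst

theorem W_primrec : PrimrecRel W := by
  have h1 : PrimrecRel (fun s t : ℕ => (s ≤ t ∧ A s t) ∨ (¬ s ≤ t ∧ ¬ A t s)) := by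
    refine PrimrecPred.or (PrimrecPred.and ?_ ?_) (PrimrecPred.and (PrimrecPred.not ?_)
      (PrimrecPred.not ?_))
    · exact Primrec.nat_le.comp Primrec.fst Primrec.snd
    · exact A_primrec.comp Primrec.fst Primrec.snd
    · exact Primrec.nat_le.comp Primrec.fst Primrec.snd
    · exact A_primrec.comp Primrec.snd Primrec.fst
  refine h1.of_eq (fun s t => ?_)
  unfold W
  split_ifs with h <;> simp [h]

theorem comp_find {α : Type} [Primcodable α] (P : α → ℕ → Bool) (hP : Computable₂ P)
    (H : ∀ a, ∃ n, P a n = true) : Computable fun a => Nat.find (H a) := by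
  have h1 : Partrec fun a => Nat.rfind (fun n => (Part.some (P a n) : Part Bool)) :=
    Partrec.rfind hP.partrec₂
  refine h1.of_eq fun a => ?_
  apply Part.eq_some_iff.2
  refine Nat.mem_rfind.2 ⟨?_, ?_⟩
  · rw [Nat.find_spec (H a)]
    exact Part.mem_some _
  · intro m hm
    have h2 : P a m = false := by
      have := Nat.find_min (H a) hm
      simpa using this
    rw [h2]
    exact Part.mem_some _

/-- the omega part is not computable -/
theorem T_not_computable : ¬ ComputablePred T := by
  intro hT
  apply ComputablePred.halting_problem 0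
  obtain ⟨f, hf, hfT⟩ := ComputablePred.computable_iff.1 hT
  have hTf : ∀ s, T s ↔ f s = true := fun s => by rw [hfT]
  -- search
  let q : ℕ → ℕ → Bool := fun n s => f s && decide (n + 1 ≤ G s)
  have hq : Computable₂ q := by
    have h1 : Computable (fun p : ℕ × ℕ => f p.2) := hf.comp Computable.snd
    have h2 : Primrec (fun p : ℕ × ℕ => decide (p.1 + 1 ≤ G p.2)) :=
      (Primrec.nat_le.comp (Primrec.succ.comp Primrec.fst) (G_primrec.comp Primrec.snd)).decide
    exact (Primrec.and.to_comp.comp h1 h2.to_comp).to₂
  have hex : ∀ n, ∃ s, q n s = true := by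
    intro n
    obtain ⟨s, hs, hn⟩ := exists_T_G (n + 1)
    refine ⟨s, ?_⟩
    simp only [q, Bool.and_eq_true, decide_eq_true_eq]
    exact ⟨(hTf s).1 hs, hn⟩
  have hfind : Computable (fun n => Nat.find (hex n)) := comp_find q hq hex
  rw [ComputablePred.computable_iff]
  refine ⟨fun c => conv (Nat.find (hex (Encodable.encode c)) + 1) (Encodable.encode c), ?_, ?_⟩
  · exact conv_primrec.to_comp.comp (Computable.succ.comp (hfind.comp Computable.encode))
      Computable.encode
  · funext c
    have hs := Nat.find_spec (hex (Encodable.encode c))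
    set s := Nat.find (hex (Encodable.encode c))
    simp only [q, Bool.and_eq_true, decide_eq_true_eq] at hs
    have hdec := T_decides ((hTf s).2 hs.1) hs.2
    rw [eq_iff_iff, ← hdec]
    constructor
    · intro h
      obtain ⟨a, ha⟩ := Part.dom_iff_mem.1 h
      obtain ⟨k, hk⟩ := evaln_complete.1 ha
      refine ⟨k, ?_⟩
      unfold conv
      rw [Denumerable.ofNat_encode]
      rw [Option.isSome_iff_exists]
      exact ⟨a, hk⟩
    · rintro ⟨k, hk⟩
      unfold conv at hk
      rw [Denumerable.ofNat_encode, Option.isSome_iff_exists] at hk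
      obtain ⟨a, ha⟩ := hk
      exact Part.dom_iff_mem.2 ⟨a, evaln_sound ha⟩

end Pool.Agent.T9h91.WO
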